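import Pool.Agent.H31.RK2

set_option autoImplicit false

open Pool.Agent.H31 TopologicalSpace

theorem Pool.Agent.Results.MP_12e723_gt.Q1.result :
    ∃ (X : Type) (_ : TopologicalSpace X), T3Space X ∧ SeparableSpace X ∧
      (∀ x : X, ¬ IsOpen ({x} : Set X)) ∧
      ∃ B : Set (Set X), IsTopologicalBasis B ∧
        ∀ B0 B1 : Set (Set X), B0 ⊆ B → B1 ⊆ B → Disjoint B0 B1 →
          ¬ (IsTopologicalBasis B0 ∧ IsTopologicalBasis B1) :=
  ⟨Omega1.W → ℝ, inferInstance, inferInstance, RK.sep, fun x => not_isOpen_singleton x, RK.not_res⟩
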